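import Pool.Agent.H33R3.Bom.Final2
import Pool.Agent.H33R3.Bom.Final3

set_option autoImplicit false

/-!
# Q1: the Bombieri constants `c_n^*` are of exact order `n^3 log n`

`n^3 log n / 10^4 ≤ c_n^* ≤ 10^5 n^3 (1 + log n)` and `(n^3 - n) / 6 ≤ c_n^*` for every `n ≥ 2`.
-/

namespace Pool.Agent.Results.MP_7d58db_an.BombieriConstants

open Metric Set

/-- The class `S`: analytic and injective functions on the unit disc, `f 0 = 0`, `f' 0 = 1`. -/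
def S : Set (ℂ → ℂ) :=
  {f | DifferentiableOn ℂ f (ball 0 1) ∧ InjOn f (ball 0 1) ∧ f 0 = 0 ∧ deriv f 0 = 1}

/-- The `n`-th Taylor coefficient of `f` at the origin. -/
noncomputable def a (f : ℂ → ℂ) (n : ℕ) : ℂ := iteratedDeriv n f 0 / (n.factorial : ℂ)

/-- The constants `c` with `|Re (n - a_n)| ≤ c Re (2 - a_2)` on `S`. -/
def Admissible (n : ℕ) : Set ℝ :=
  {c : ℝ | ∀ f ∈ S, |((n : ℂ) - a f n).re| ≤ c * ((2 : ℂ) - a f 2).re}

theorem mem_S {f : ℂ → ℂ} (hf : Pool.Agent.H33R3.Bom.InS f) : f ∈ S :=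
  ⟨hf.diff, hf.inj, hf.zero, hf.one⟩

theorem upper (n : ℕ) (hn : 2 ≤ n) :
    10 ^ 5 * (n : ℝ) ^ 3 * (1 + Real.log n) ∈ Admissible n := fun f hf =>
  (Pool.Agent.H33R3.Bom.goal2 f ⟨hf.1, hf.2.1, hf.2.2.1, hf.2.2.2⟩ n hn).1

theorem lower (n : ℕ) {c : ℝ} (hc : c ∈ Admissible n) : ((n : ℝ) ^ 3 - n) / 6 ≤ c :=
  Pool.Agent.H33R3.Bom.LB.lower1 n c fun f hf => hc f (mem_S hf)

theorem lowerLog (n : ℕ) (hn : 2 ≤ n) {c : ℝ} (hc : c ∈ Admissible n) :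
    (n : ℝ) ^ 3 * Real.log n / 10 ^ 4 ≤ c :=
  Pool.Agent.H33R3.Bom.lowerLog n hn c fun f hf => hc f (mem_S hf)

theorem result :
    ∀ n : ℕ, 2 ≤ n → ∃ c : ℝ, IsLeast (Admissible n) c ∧
      (n : ℝ) ^ 3 * Real.log n / 10 ^ 4 ≤ c ∧ ((n : ℝ) ^ 3 - n) / 6 ≤ c ∧
      c ≤ 10 ^ 5 * (n : ℝ) ^ 3 * (1 + Real.log n) := by
  intro n hn
  have hbdd : BddBelow (Admissible n) := ⟨((n : ℝ) ^ 3 - n) / 6, fun c hc => lower n hc⟩
  have hclosed : IsClosed (Admissible n) := by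
    have : Admissible n = ⋂ f ∈ S, {c : ℝ | |((n : ℂ) - a f n).re| ≤ c * ((2 : ℂ) - a f 2).re} := by
      ext c; simp [Admissible]
    rw [this]
    exact isClosed_biInter fun f _ =>
      isClosed_le continuous_const (continuous_id.mul continuous_const)
  have hmem := hclosed.csInf_mem ⟨_, upper n hn⟩ hbdd
  exact ⟨sInf (Admissible n), ⟨hmem, fun c hc => csInf_le hbdd hc⟩, lowerLog n hn hmem,
    lower n hmem, csInf_le hbdd (upper n hn)⟩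

end Pool.Agent.Results.MP_7d58db_an.BombieriConstants
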